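import Pool.Agent.Run7.h721.KL3.Final3
import Pool.Agent.KLev.Arcs

/-!
# Levels of `s`-intersecting arcs: at least `n ^ (1 + C / (log log n) ^ 3)` vertices

`Arc`, `IsFamily`, `vertices`, `below`, `kLevel`, `complexity` and `Psi` are defined in
`Pool/Agent/KLev/Arcs.lean` (namespace `KLev.Arcs`).
-/

namespace Pool.Agent.Results.MP_b774a0_co.CubicLogLog

open Filter KLev

/-- For every `s ≥ 1` and every constant `C`, all large `n` satisfy
`Psi s n ≥ n ^ (1 + C / (log log n) ^ 3)`. -/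
theorem result : ∀ s : ℕ, 1 ≤ s → ∀ C : ℝ, ∀ᶠ n : ℕ in atTop,
    (n : ℝ) ^ (1 + C / (Real.log (Real.log n)) ^ 3) ≤ (Arcs.Psi s n : ℝ) := by
  intro s hs C
  obtain ⟨a, ha⟩ := (Pool.Agent.Run7.h721.KL3.finalP 1 C).exists_forall_of_atTop
  filter_upwards [eventually_ge_atTop (2 * a + 10)] with n hn
  obtain ⟨N, E, P, hH, hN, hE⟩ := ha (n / 2) (by omega)
  have h1 := Arcs.Psi_ge hs hH n (by omega) (by omega)
  have h2 : (E : ℝ) ≤ Arcs.Psi s n := by exact_mod_cast h1
  have h3 := hE n (by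
    have : n / 2 ≤ n := Nat.div_le_self n 2
    exact_mod_cast this) (by
    have : n ≤ 8 * (n / 2) := by omega
    exact_mod_cast this)
  rw [one_mul] at h3
  exact h3.trans h2

end Pool.Agent.Results.MP_b774a0_co.CubicLogLog
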