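import Pool.Agent.Run7.h726.RS.M3

/-!
# Levels of random subfamilies of `s`-intersecting arcs

`Arc`, `IsFamily` and `complexity` are defined in `Pool/Agent/KLev/Arcs.lean` (namespace
`KLev.Arcs`), the subfamily `sub Γ T` of the arcs with index in `T` in
`Pool/Agent/Run7/h726/RS/M3.lean`.
-/

set_option autoImplicit false

namespace Pool.Agent.Results.MP_b774a0_co.RandomSubfamilies

open KLev.Arcs Run7.h726.RS

/-- Let `Γ` be a family of `n` arcs, every two with at most `s` common points, and `k ≥ 0`.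
1. If every arc is deleted independently with probability `p`, `0 < p ≤ 1 / 2`, then the expected
complexity of the `k`-level of the remaining arcs is at most `3 n (n s + 2) / √(2 p (k + 1))`.
2. For `1 ≤ m ≤ n` at most `m` arcs can be deleted so that the `k`-level of the remaining arcs has
complexity at most `6 n (n s + 2) √(n / (m (k + 1)))`. -/
theorem result (s n : ℕ) (Γ : Fin n → Arc) (hΓ : IsFamily s Γ) (k : ℕ) :
    (∀ p : ℝ, 0 < p → p ≤ 1 / 2 →
      ∑ T : Finset (Fin n), (1 - p) ^ T.card * p ^ (n - T.card) *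
        (complexity (sub Γ T) k : ℝ) ≤ 3 * n * (n * s + 2) / √(2 * p * ((k : ℝ) + 1))) ∧
    (∀ m : ℕ, 1 ≤ m → m ≤ n → ∃ T : Finset (Fin n), n - T.card ≤ m ∧
      (complexity (sub Γ T) k : ℝ) ≤ 6 * n * (n * s + 2) * √((n : ℝ) / (m * ((k : ℝ) + 1)))) :=
  ⟨fun _ h0 h1 => expected hΓ h0 h1 k, fun _ hm hmn => few hΓ hm hmn k⟩

end Pool.Agent.Results.MP_b774a0_co.RandomSubfamilies
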